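import Pool.Agent.QSN.StmtsE
import Pool.Agent.Helper27_QSX.SPN

/-!
# Squad QSN, row MSU: the datum of the unitary groups
-/

set_option autoImplicit false

namespace Pool.Agent.QSN.H30M

open Matrix Finset Pool.Agent.QSX
open Pool.Agent.QSX.H27S (RI ne_rev nonprop_aux sep_aux)
open Pool.Agent.QSX.H10 (rd rd_cst)

variable {p k : ℕ}

theorem s_rev (ε : ℝ) (i : Fin (2 * p)) : sU p ε i * sU p ε (Fin.rev i) = ε := by
  unfold sU
  rw [Fin.val_rev]
  have := i.2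
  by_cases h : (i : ℕ) < p
  · rw [if_pos h, if_neg (by omega), one_mul]
  · rw [if_neg h, if_pos (by omega), mul_one]

theorem s_sq2 {ε : ℝ} (hε : ε * ε = 1) (i j : Fin (2 * p)) :
    (sU p ε i * sU p ε j) * (sU p ε i * sU p ε j) = 1 := by
  have h1 := sU_sq ε hε i
  have h2 := sU_sq ε hε j
  linear_combination (sU p ε j * sU p ε j) * h1 + h2

theorem s_rev2 {ε : ℝ} (hε : ε * ε = 1) (i j : Fin (2 * p)) :
    (sU p ε (Fin.rev j) * sU p ε (Fin.rev i)) * (sU p ε i * sU p ε j) = 1 := by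
  have h1 := s_rev ε i
  have h2 := s_rev ε j
  linear_combination (sU p ε j * sU p ε (Fin.rev j)) * h1 + ε * h2 + hε

/-- root vectors -/
noncomputable def TT (k : ℕ) (ε : ℝ) (i j : Fin (2 * p)) : Matrix (Fin k) (Fin k) ℝ →ₗ[ℝ]
    Matrix (Fin (2 * p)) (Fin (2 * p)) (Matrix (Fin k) (Fin k) ℝ) where
  toFun a := Matrix.of fun u v => if u = i ∧ v = j then a else
    if u = Fin.rev j ∧ v = Fin.rev i then (-(sU p ε i * sU p ε j)) • aᵀ else 0
  map_add' a b := by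
    refine Matrix.ext fun u v => ?_
    rw [Matrix.add_apply, Matrix.of_apply, Matrix.of_apply, Matrix.of_apply]
    by_cases h1 : u = i ∧ v = j
    · rw [if_pos h1, if_pos h1, if_pos h1]
    · by_cases h2 : u = Fin.rev j ∧ v = Fin.rev i
      · rw [if_neg h1, if_neg h1, if_neg h1, if_pos h2, if_pos h2, if_pos h2,
          Matrix.transpose_add, smul_add]
      · rw [if_neg h1, if_neg h1, if_neg h1, if_neg h2, if_neg h2, if_neg h2, add_zero]
  map_smul' r a := by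
    refine Matrix.ext fun u v => ?_
    rw [RingHom.id_apply, Matrix.smul_apply, Matrix.of_apply, Matrix.of_apply]
    by_cases h1 : u = i ∧ v = j
    · rw [if_pos h1, if_pos h1]
    · by_cases h2 : u = Fin.rev j ∧ v = Fin.rev i
      · rw [if_neg h1, if_neg h1, if_pos h2, if_pos h2, Matrix.transpose_smul, smul_comm]
      · rw [if_neg h1, if_neg h1, if_neg h2, if_neg h2, smul_zero]

theorem TT_apply (ε : ℝ) (i j u v : Fin (2 * p)) (a : Matrix (Fin k) (Fin k) ℝ) :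
    TT k ε i j a u v = if u = i ∧ v = j then a else
      if u = Fin.rev j ∧ v = Fin.rev i then (-(sU p ε i * sU p ε j)) • aᵀ else 0 := rfl

theorem TT_r1 (ε : ℝ) (i j w : Fin (2 * p)) (a : Matrix (Fin k) (Fin k) ℝ) :
    TT k ε i j a i w = if w = j then a else 0 := by
  rw [TT_apply]
  by_cases h : w = j
  · rw [if_pos ⟨rfl, h⟩, if_pos h]
  · rw [if_neg (fun hh => h hh.2), if_neg h, if_neg]
    rintro ⟨h1, h2⟩
    apply h
    rw [h2, h1, Fin.rev_rev]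

theorem TT_r2 (ε : ℝ) (i j w : Fin (2 * p)) (h : Fin.rev j ≠ i)
    (a : Matrix (Fin k) (Fin k) ℝ) :
    TT k ε i j a (Fin.rev j) w = if w = Fin.rev i then (-(sU p ε i * sU p ε j)) • aᵀ else 0 := by
  rw [TT_apply, if_neg (fun hh => h hh.1)]
  by_cases h1 : w = Fin.rev i
  · rw [if_pos ⟨rfl, h1⟩, if_pos h1]
  · rw [if_neg (fun hh => h1 hh.2), if_neg h1]

theorem TT_r0 (ε : ℝ) (i j u w : Fin (2 * p)) (h1 : u ≠ i) (h2 : u ≠ Fin.rev j)
    (a : Matrix (Fin k) (Fin k) ℝ) : TT k ε i j a u w = 0 := by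
  rw [TT_apply, if_neg (fun hh => h1 hh.1), if_neg (fun hh => h2 hh.1)]

theorem row1 (ε : ℝ) (i j v : Fin (2 * p)) (a : Matrix (Fin k) (Fin k) ℝ)
    (M : Matrix (Fin (2 * p)) (Fin (2 * p)) (Matrix (Fin k) (Fin k) ℝ)) :
    (TT k ε i j a * M) i v = a * M j v := by
  rw [Matrix.mul_apply, Finset.sum_eq_single j]
  · rw [TT_r1, if_pos rfl]
  · intro w _ hw
    rw [TT_r1, if_neg hw, zero_mul]
  · intro h
    exact absurd (mem_univ _) h

theorem row2 (ε : ℝ) (i j v : Fin (2 * p)) (h : Fin.rev j ≠ i) (a : Matrix (Fin k) (Fin k) ℝ)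
    (M : Matrix (Fin (2 * p)) (Fin (2 * p)) (Matrix (Fin k) (Fin k) ℝ)) :
    (TT k ε i j a * M) (Fin.rev j) v = (-(sU p ε i * sU p ε j)) • (aᵀ * M (Fin.rev i) v) := by
  rw [Matrix.mul_apply, Finset.sum_eq_single (Fin.rev i)]
  · rw [TT_r2 _ _ _ _ h, if_pos rfl, Matrix.smul_mul]
  · intro w _ hw
    rw [TT_r2 _ _ _ _ h, if_neg hw, zero_mul]
  · intro h
    exact absurd (mem_univ _) h

theorem row0 (ε : ℝ) (i j u v : Fin (2 * p)) (h1 : u ≠ i) (h2 : u ≠ Fin.rev j)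
    (a : Matrix (Fin k) (Fin k) ℝ)
    (M : Matrix (Fin (2 * p)) (Fin (2 * p)) (Matrix (Fin k) (Fin k) ℝ)) :
    (TT k ε i j a * M) u v = 0 := by
  rw [Matrix.mul_apply]
  refine Finset.sum_eq_zero fun w _ => ?_
  rw [TT_r0 _ _ _ _ _ h1 h2, zero_mul]

theorem ne1 {x y : Fin (2 * p)} (h : (x : ℕ) ≠ y) : x ≠ y := fun h' => h (by rw [h'])

/-- the space of the root `q` -/
def VV (p : ℕ) {k : ℕ} (𝔻 : Subalgebra ℝ (Matrix (Fin k) (Fin k) ℝ)) (ε : ℝ) (i j : Fin (2 * p)) :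
    Submodule ℝ (Matrix (Fin k) (Fin k) ℝ) where
  carrier := {a | a ∈ 𝔻 ∧ (j = Fin.rev i → aᵀ = (-ε) • a)}
  add_mem' := by
    intro a b ha hb
    refine ⟨𝔻.add_mem ha.1 hb.1, fun h => ?_⟩
    rw [Matrix.transpose_add, ha.2 h, hb.2 h, smul_add]
  zero_mem' := ⟨𝔻.zero_mem, fun _ => by rw [Matrix.transpose_zero, smul_zero]⟩
  smul_mem' := by
    intro r a ha
    refine ⟨𝔻.smul_mem ha.1 r, fun h => ?_⟩
    rw [Matrix.transpose_smul, ha.2 h, smul_comm]

variable {𝔻 : Subalgebra ℝ (Matrix (Fin k) (Fin k) ℝ)} {ε : ℝ}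

theorem mem_VV {i j : Fin (2 * p)} {a : Matrix (Fin k) (Fin k) ℝ} :
    a ∈ VV p 𝔻 ε i j ↔ a ∈ 𝔻 ∧ (j = Fin.rev i → aᵀ = (-ε) • a) := Iff.rfl

theorem TT_mem (hε : ε * ε = 1) (ht : ∀ a ∈ 𝔻, aᵀ ∈ 𝔻) {i j : Fin (2 * p)} (hij : i < j)
    {a : Matrix (Fin k) (Fin k) ℝ} (ha : a ∈ VV p 𝔻 ε i j) : TT k ε i j a ∈ nU p 𝔻 ε := by
  refine ⟨⟨fun u v => ?_, fun u v huv => ?_⟩, fun u v => ?_⟩
  · rw [TT_apply]
    split_ifs
    · exact ha.1
    · exact 𝔻.smul_mem (ht a ha.1) _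
    · exact 𝔻.zero_mem
  · rw [TT_apply, if_neg, if_neg]
    · rintro ⟨rfl, rfl⟩
      rw [Fin.le_def, Fin.val_rev, Fin.val_rev] at huv
      rw [Fin.lt_def] at hij
      have := i.2
      have := j.2
      omega
    · rintro ⟨rfl, rfl⟩
      exact absurd huv (not_le.2 hij)
  · rw [TT_apply, TT_apply]
    by_cases h1 : u = i ∧ v = j
    · obtain ⟨rfl, rfl⟩ := h1
      rw [if_pos (c := u = u ∧ v = v) ⟨rfl, rfl⟩]
      by_cases h2 : Fin.rev v = u ∧ Fin.rev u = v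
      · rw [if_pos h2]
        have h3 : v = Fin.rev u := h2.2.symm
        have h4 := ha.2 h3
        rw [h4, h3, s_rev, smul_smul]
        rw [show -ε * -ε = 1 by linarith, one_smul]
      · rw [if_neg h2, if_pos ⟨rfl, rfl⟩]
    · by_cases h2 : u = Fin.rev j ∧ v = Fin.rev i
      · have h3 : Fin.rev v = i ∧ Fin.rev u = j := by
          rw [h2.1, h2.2, Fin.rev_rev, Fin.rev_rev]
          exact ⟨rfl, rfl⟩
        rw [if_pos h3, if_neg h1, if_pos h2, h2.1, h2.2, Matrix.transpose_smul,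
          Matrix.transpose_transpose, smul_smul, neg_mul_neg, s_rev2 hε, one_smul]
      · have h3 : ¬ (Fin.rev v = i ∧ Fin.rev u = j) := by
          rintro ⟨h4, h5⟩
          refine h2 ⟨?_, ?_⟩
          · rw [← h5, Fin.rev_rev]
          · rw [← h4, Fin.rev_rev]
        have h4 : ¬ (Fin.rev v = Fin.rev j ∧ Fin.rev u = Fin.rev i) := by
          rintro ⟨h5, h6⟩
          exact h1 ⟨Fin.rev_injective h6, Fin.rev_injective h5⟩
        rw [if_neg h3, if_neg h4, if_neg h1, if_neg h2, Matrix.transpose_zero, smul_zero]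

/-- the entries in the fundamental region -/
theorem TT_fund (ε : ℝ) (l : RI (2 * p)) (a b : Fin (2 * p)) (h2 : (a : ℕ) + b + 1 ≤ 2 * p)
    (x : Matrix (Fin k) (Fin k) ℝ) :
    TT k ε l.1.1 l.1.2 x a b = if a = l.1.1 ∧ b = l.1.2 then x else 0 := by
  obtain ⟨⟨i, j⟩, h3, h4⟩ := l
  simp only at h3 h4
  rw [TT_apply]
  by_cases h5 : a = i ∧ b = j
  · rw [if_pos h5, if_pos h5]
  · rw [if_neg h5, if_neg (c := a = Fin.rev j ∧ b = Fin.rev i), if_neg h5]
    rintro ⟨rfl, rfl⟩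
    apply h5
    rw [Fin.val_rev, Fin.val_rev] at h2
    have := i.2
    have := j.2
    constructor
    · rw [Fin.ext_iff, Fin.val_rev]; omega
    · rw [Fin.ext_iff, Fin.val_rev]; omega

theorem TT_fund' (ε : ℝ) (l l' : RI (2 * p)) (x : Matrix (Fin k) (Fin k) ℝ) :
    TT k ε l.1.1 l.1.2 x l'.1.1 l'.1.2 = if l' = l then x else 0 := by
  rw [TT_fund ε l _ _ l'.2.2]
  by_cases h : l' = l
  · subst h
    rw [if_pos ⟨rfl, rfl⟩, if_pos rfl]
  · rw [if_neg h, if_neg]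
    rintro ⟨h1, h2⟩
    exact h (Subtype.ext (Prod.ext h1 h2))

/-- an element of `nU` is determined by the fundamental entries -/
theorem ext_fund (hε : ε * ε = 1)
    {x y : Matrix (Fin (2 * p)) (Fin (2 * p)) (Matrix (Fin k) (Fin k) ℝ)} (hx : x ∈ nU p 𝔻 ε)
    (hy : y ∈ nU p 𝔻 ε) (h : ∀ l : RI (2 * p), x l.1.1 l.1.2 = y l.1.1 l.1.2) : x = y := by
  have hf : ∀ a b : Fin (2 * p), a < b → (a : ℕ) + b + 1 ≤ 2 * p → x a b = y a b := fun a b h1 h2 =>
    h ⟨(a, b), h1, h2⟩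
  refine Matrix.ext fun a b => ?_
  rcases le_or_gt b a with h1 | h1
  · rw [hx.1.2 a b h1, hy.1.2 a b h1]
  · by_cases h2 : (a : ℕ) + b + 1 ≤ 2 * p
    · exact hf a b h1 h2
    · have h3 := hx.2 a b
      have h4 := hy.2 a b
      have h5 : x (Fin.rev b) (Fin.rev a) = y (Fin.rev b) (Fin.rev a) := by
        refine hf _ _ ?_ ?_
        · rw [Fin.lt_def] at h1
          rw [Fin.lt_def, Fin.val_rev, Fin.val_rev]
          have := a.2
          have := b.2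
          omega
        · rw [Fin.val_rev, Fin.val_rev]
          have := a.2
          have := b.2
          omega
      rw [h3, h4] at h5
      have h6 := s_sq2 hε a b
      have h7 : (-(sU p ε a * sU p ε b)) ≠ 0 := by
        intro h0
        have h8 : sU p ε a * sU p ε b = 0 := by linarith
        rw [h8, mul_zero] at h6
        exact zero_ne_one h6
      have h8 := smul_right_injective _ h7 h5
      exact Matrix.transpose_injective h8

theorem nU_lie (hε : ε * ε = 1)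
    {x y : Matrix (Fin (2 * p)) (Fin (2 * p)) (Matrix (Fin k) (Fin k) ℝ)} (hx : x ∈ nU p 𝔻 ε)
    (hy : y ∈ nU p 𝔻 ε) : x * y - y * x ∈ nU p 𝔻 ε := by
  obtain ⟨z, hz, h⟩ := (datU p 𝔻 ε hε).lie (blk k (2 * p) x) ⟨x, hx, rfl⟩ (blk k (2 * p) y)
    ⟨y, hy, rfl⟩
  have h1 : blk k (2 * p) (x * y - y * x) = blk k (2 * p) z := by
    rw [← h, map_sub, map_mul, map_mul]
    rfl
  rw [(blk k (2 * p)).injective h1]
  exact hz

/-- type (A) -/
theorem br1 (hε : ε * ε = 1) (ht : ∀ a ∈ 𝔻, aᵀ ∈ 𝔻) {i h j : Fin (2 * p)} (h1 : i < h) (h2 : h < j)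
    (h3 : (j : ℕ) < p) {a : Matrix (Fin k) (Fin k) ℝ} (ha : a ∈ 𝔻) :
    TT k ε i h 1 * TT k ε h j a - TT k ε h j a * TT k ε i h 1 = TT k ε i j a := by
  rw [Fin.lt_def] at h1 h2
  have hi := i.2
  have hj := j.2
  have e1 : TT k ε i h (1 : Matrix (Fin k) (Fin k) ℝ) ∈ nU p 𝔻 ε := TT_mem hε ht h1
    ⟨𝔻.one_mem, fun hh => by have := congrArg Fin.val hh; rw [Fin.val_rev] at this; omega⟩
  have e2 : TT k ε h j a ∈ nU p 𝔻 ε := TT_mem hε ht h2
    ⟨ha, fun hh => by have := congrArg Fin.val hh; rw [Fin.val_rev] at this; omega⟩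
  have e3 : TT k ε i j a ∈ nU p 𝔻 ε := TT_mem hε ht (by rw [Fin.lt_def]; omega)
    ⟨ha, fun hh => by have := congrArg Fin.val hh; rw [Fin.val_rev] at this; omega⟩
  refine ext_fund hε (nU_lie hε e1 e2) e3 ?_
  rintro ⟨⟨u, v⟩, h4, h5⟩
  simp only at h4 h5 ⊢
  rw [Fin.lt_def] at h4
  have hu := u.2
  have e4 : (TT k ε h j a * TT k ε i h 1) u v = 0 := by
    by_cases huh : u = h
    · subst huh
      rw [row1, TT_r0 _ _ _ _ _ (ne1 (by omega)) (ne1 (by rw [Fin.val_rev]; omega)), mul_zero]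
    · rw [row0 _ _ _ _ _ huh (ne1 (by rw [Fin.val_rev]; omega))]
  rw [Matrix.sub_apply, e4, sub_zero]
  by_cases hui : u = i
  · subst hui
    rw [row1, TT_r1, TT_r1, one_mul]
  · rw [row0 _ _ _ _ _ hui (ne1 (by rw [Fin.val_rev]; omega)),
      TT_r0 _ _ _ _ _ hui (ne1 (by rw [Fin.val_rev]; omega))]

/-- type (C) -/
theorem br2 (hε : ε * ε = 1) (ht : ∀ a ∈ 𝔻, aᵀ ∈ 𝔻) {i h : Fin (2 * p)} (h1 : i < h)
    (h3 : (h : ℕ) < p) {a g : Matrix (Fin k) (Fin k) ℝ} (ha : a ∈ 𝔻) (hg : g ∈ 𝔻)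
    (hg2 : gᵀ = (-ε) • g) :
    TT k ε i h a * TT k ε h (Fin.rev h) g - TT k ε h (Fin.rev h) g * TT k ε i h a =
      TT k ε i (Fin.rev h) (a * g) := by
  rw [Fin.lt_def] at h1
  have hi := i.2
  have hh := h.2
  have e1 : TT k ε i h a ∈ nU p 𝔻 ε := TT_mem hε ht h1
    ⟨ha, fun hh => by have := congrArg Fin.val hh; rw [Fin.val_rev] at this; omega⟩
  have e2 : TT k ε h (Fin.rev h) g ∈ nU p 𝔻 ε :=
    TT_mem hε ht (by rw [Fin.lt_def, Fin.val_rev]; omega) ⟨hg, fun _ => hg2⟩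
  have e3 : TT k ε i (Fin.rev h) (a * g) ∈ nU p 𝔻 ε :=
    TT_mem hε ht (by rw [Fin.lt_def, Fin.val_rev]; omega)
    ⟨𝔻.mul_mem ha hg, fun hh => by
      have := congrArg Fin.val (Fin.rev_injective hh); omega⟩
  refine ext_fund hε (nU_lie hε e1 e2) e3 ?_
  rintro ⟨⟨u, v⟩, h4, h5⟩
  simp only at h4 h5 ⊢
  rw [Fin.lt_def] at h4
  have hu := u.2
  have e4 : (TT k ε h (Fin.rev h) g * TT k ε i h a) u v = 0 := by
    by_cases huh : u = h
    · subst huh
      rw [row1, TT_r2 _ _ _ _ (ne1 (by rw [Fin.val_rev]; omega)),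
        if_neg (ne1 (by rw [Fin.val_rev]; omega)), mul_zero]
    · rw [row0 _ _ _ _ _ huh (by rw [Fin.rev_rev]; exact huh)]
  rw [Matrix.sub_apply, e4, sub_zero]
  by_cases hui : u = i
  · subst hui
    rw [row1, TT_r1, TT_r1]
    split_ifs
    · rfl
    · rw [mul_zero]
  · rw [row0 _ _ _ _ _ hui (ne1 (by rw [Fin.val_rev]; omega)), TT_apply,
      if_neg (fun hh => hui hh.1), if_neg]
    rintro ⟨hu2, hv⟩
    rw [Fin.rev_rev] at hu2
    subst hu2
    have := congrArg Fin.val hv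
    rw [Fin.val_rev] at this
    omega

/-- the bracket of the root spaces `c_i - c_h` and `c_i + c_h` -/
theorem br3 (ε : ℝ) {i h : Fin (2 * p)} (h1 : i < h) (h2 : i < Fin.rev h)
    (a b : Matrix (Fin k) (Fin k) ℝ) (u v : Fin (2 * p)) :
    (TT k ε i h a * TT k ε i (Fin.rev h) b - TT k ε i (Fin.rev h) b * TT k ε i h a) u v =
      if u = i ∧ v = Fin.rev i then (-(sU p ε i * sU p ε (Fin.rev h))) • (a * bᵀ) +
        (sU p ε i * sU p ε h) • (b * aᵀ) else 0 := by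
  rw [Fin.lt_def] at h1 h2
  rw [Fin.val_rev] at h2
  have hi := i.2
  have hh := h.2
  have n1 : Fin.rev (Fin.rev h) ≠ i := by rw [Fin.rev_rev]; exact ne1 (by omega)
  have n2 : Fin.rev h ≠ i := ne1 (by rw [Fin.val_rev]; omega)
  rw [Matrix.sub_apply]
  by_cases hui : u = i
  · subst hui
    rw [row1, row1]
    have e1 : TT k ε u (Fin.rev h) b h v =
        if v = Fin.rev u then (-(sU p ε u * sU p ε (Fin.rev h))) • bᵀ else 0 := by
      have := TT_r2 ε u (Fin.rev h) v n1 b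
      rwa [Fin.rev_rev] at this
    rw [e1, TT_r2 _ _ _ _ n2]
    by_cases hv : v = Fin.rev u
    · rw [if_pos hv, if_pos hv, if_pos ⟨rfl, hv⟩, Matrix.mul_smul, Matrix.mul_smul, neg_smul,
        neg_smul, sub_neg_eq_add]
    · rw [if_neg hv, if_neg hv, if_neg (fun hh => hv hh.2), mul_zero, mul_zero, sub_zero]
  · rw [if_neg (fun hh => hui hh.1)]
    have e1 : (TT k ε i h a * TT k ε i (Fin.rev h) b) u v = 0 := by
      by_cases hu : u = Fin.rev h
      · subst hu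
        rw [row2 _ _ _ _ n2, TT_r0 _ _ _ _ _ (ne1 (by rw [Fin.val_rev]; omega))
          (by rw [Fin.rev_rev]; exact ne1 (by rw [Fin.val_rev]; omega)), mul_zero, smul_zero]
      · rw [row0 _ _ _ _ _ hui hu]
    have e2 : (TT k ε i (Fin.rev h) b * TT k ε i h a) u v = 0 := by
      by_cases hu : u = h
      · have := row2 ε i (Fin.rev h) v n1 b (TT k ε i h a)
        rw [Fin.rev_rev] at this
        rw [hu, this, TT_r0 _ _ _ _ _ (ne1 (by rw [Fin.val_rev]; omega))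
          (fun hh => (ne1 (by omega) : i ≠ h) (Fin.rev_injective hh)), mul_zero, smul_zero]
      · rw [row0 _ _ _ _ _ hui (by rw [Fin.rev_rev]; exact hu)]
    rw [e1, e2, sub_zero]

/-- the bracket with a root vector of the first row -/
theorem cl1 (ε : ℝ) {z i j : Fin (2 * p)} (h1 : z ≠ i) (h2 : z ≠ Fin.rev j)
    (a : Matrix (Fin k) (Fin k) ℝ) :
    (TT k ε i j a * TT k ε z i 1 - TT k ε z i 1 * TT k ε i j a) z j = - a := by
  rw [Matrix.sub_apply, row0 _ _ _ _ _ h1 h2, row1, TT_r1, if_pos rfl, one_mul, zero_sub]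

/-! ### rational bases -/

theorem rat_basis (V : Submodule ℝ (Matrix (Fin k) (Fin k) ℝ)) (S : Set (Matrix (Fin k) (Fin k) ℝ))
    (hS : ∀ z ∈ S, ∀ i j, ∃ q : ℚ, z i j = (q : ℝ)) (hV : Submodule.span ℝ S = V) :
    ∃ (d : ℕ) (b : Fin d → Matrix (Fin k) (Fin k) ℝ), LinearIndependent ℝ b ∧
      Submodule.span ℝ (Set.range b) = V ∧ ∀ β i j, ∃ q : ℚ, b β i j = (q : ℝ) := by
  obtain ⟨b, hbS, hbs, hbl⟩ := exists_linearIndependent ℝ S
  have hf : b.Finite := hbl.setFinite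
  have := hf.fintype
  refine ⟨Fintype.card b, fun β => ((Fintype.equivFin b).symm β : Matrix (Fin k) (Fin k) ℝ),
    hbl.comp _ (Fintype.equivFin b).symm.injective, ?_, ?_⟩
  · rw [← hV, ← hbs]
    congr 1
    ext x
    constructor
    · rintro ⟨β, rfl⟩
      exact ((Fintype.equivFin b).symm β).2
    · intro hx
      exact ⟨Fintype.equivFin b ⟨x, hx⟩, by simp⟩
  · intro β
    exact hS _ (hbS ((Fintype.equivFin b).symm β).2)

theorem eps_rat (hε : ε * ε = 1) : ∃ q : ℚ, ε = (q : ℝ) := by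
  have h : (ε - 1) * (ε + 1) = 0 := by linear_combination hε
  rcases mul_eq_zero.1 h with h | h
  · exact ⟨1, by rw [Rat.cast_one]; linarith⟩
  · exact ⟨-1, by rw [Rat.cast_neg, Rat.cast_one]; linarith⟩

theorem s_rat (hε : ε * ε = 1) (i : Fin (2 * p)) : ∃ q : ℚ, sU p ε i = (q : ℝ) := by
  unfold sU
  split_ifs
  · exact ⟨1, by rw [Rat.cast_one]⟩
  · exact eps_rat hε

theorem VV_basis (hε : ε * ε = 1) (hH : Herm 𝔻 ε) (i j : Fin (2 * p)) :
    ∃ (d : ℕ) (b : Fin d → Matrix (Fin k) (Fin k) ℝ), LinearIndependent ℝ b ∧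
      Submodule.span ℝ (Set.range b) = VV p 𝔻 ε i j ∧ ∀ β i j, ∃ q : ℚ, b β i j = (q : ℝ) := by
  obtain ⟨⟨S, hS, hS2⟩, ht, -, -⟩ := hH
  by_cases h : j = Fin.rev i
  · obtain ⟨q, hq⟩ := eps_rat hε
    refine rat_basis _ ((fun z => z - ε • zᵀ) '' S) ?_ ?_
    · rintro _ ⟨z, hz, rfl⟩ u v
      obtain ⟨q1, h1⟩ := hS z hz u v
      obtain ⟨q2, h2⟩ := hS z hz v u
      refine ⟨q1 - q * q2, ?_⟩
      show z u v - ε * z v u = _
      rw [h1, h2, hq]
      push_cast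
      ring
    · apply le_antisymm
      · rw [Submodule.span_le]
        rintro _ ⟨z, hz, rfl⟩
        have hzD : z ∈ 𝔻 := by
          have : z ∈ Subalgebra.toSubmodule 𝔻 := hS2 ▸ Submodule.subset_span hz
          exact this
        refine ⟨𝔻.sub_mem hzD (𝔻.smul_mem (ht z hzD) ε), fun _ => ?_⟩
        show (z - ε • zᵀ)ᵀ = (-ε) • (z - ε • zᵀ)
        rw [Matrix.transpose_sub, Matrix.transpose_smul, Matrix.transpose_transpose, smul_sub,
          smul_smul, show -ε * ε = -1 by linarith, neg_smul, neg_smul, one_smul]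
        abel
      · intro x hx
        have h1 : x ∈ Submodule.span ℝ S := by
          rw [hS2]; exact hx.1
        have h2 := hx.2 h
        have h3 : ∀ y ∈ Submodule.span ℝ S,
            y - ε • yᵀ ∈ Submodule.span ℝ ((fun z => z - ε • zᵀ) '' S) := by
          intro y hy
          induction hy using Submodule.span_induction with
          | mem y hy => exact Submodule.subset_span ⟨y, hy, rfl⟩
          | zero => rw [Matrix.transpose_zero, smul_zero, sub_zero]; exact Submodule.zero_mem _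
          | add y z _ _ hy hz =>
            have e : y + z - ε • (y + z)ᵀ = (y - ε • yᵀ) + (z - ε • zᵀ) := by
              rw [Matrix.transpose_add, smul_add]; abel
            rw [e]; exact Submodule.add_mem _ hy hz
          | smul r y _ hy =>
            have e : r • y - ε • (r • y)ᵀ = r • (y - ε • yᵀ) := by
              rw [Matrix.transpose_smul, smul_sub, smul_comm]
            rw [e]; exact Submodule.smul_mem _ _ hy
        have h4 := h3 x h1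
        rw [h2, smul_smul, show ε * -ε = -1 by linarith, neg_smul, one_smul, sub_neg_eq_add,
          ← two_smul ℝ x] at h4
        have h5 := Submodule.smul_mem _ (1 / 2 : ℝ) h4
        rwa [smul_smul, show (1 / 2 : ℝ) * 2 = 1 by norm_num, one_smul] at h5
  · refine rat_basis _ S hS ?_
    rw [hS2]
    ext x
    exact ⟨fun hx => ⟨hx, fun hh => absurd hh h⟩, fun hx => hx.1⟩

/-- a nonzero element of `H` with its inverse -/
theorem exists_g (hH : Herm 𝔻 ε) : ∃ g ∈ 𝔻, ∃ g' ∈ 𝔻, g ≠ 0 ∧ gᵀ = (-ε) • g ∧ g' * g = 1 := by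
  obtain ⟨-, -, hinv, g, hg, hg0, hg2⟩ := hH
  obtain ⟨g', hg', h1⟩ := hinv g hg hg0
  exact ⟨g, hg, g', hg', hg0, hg2, mul_eq_one_comm.1 h1⟩

/-! ### the roots -/

/-- the vectors `c` of the datum -/
def bU (p k : ℕ) : Submodule ℝ (Fin (2 * p * k) → ℝ) where
  carrier := {c | ∃ c' : Fin (2 * p) → ℝ, (∀ i, c' (Fin.rev i) = - c' i) ∧
    c = cst k (2 * p) c'}
  add_mem' := by
    rintro _ _ ⟨c, hc, rfl⟩ ⟨c', hc', rfl⟩
    refine ⟨c + c', fun i => ?_, rfl⟩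
    rw [Pi.add_apply, Pi.add_apply, hc i, hc' i, neg_add]
  zero_mem' := ⟨0, fun i => by simp, rfl⟩
  smul_mem' := by
    rintro r _ ⟨c, hc, rfl⟩
    refine ⟨r • c, fun i => ?_, rfl⟩
    rw [Pi.smul_apply, Pi.smul_apply, hc i, smul_neg]

/-- the root of `(i, j)` -/
noncomputable def rq (hk : 0 < k) (i j : Fin (2 * p)) : bU p k →ₗ[ℝ] ℝ :=
  ((LinearMap.proj i : (Fin (2 * p) → ℝ) →ₗ[ℝ] ℝ) - LinearMap.proj j).comp
    ((rd hk).comp (bU p k).subtype)

theorem rq_apply (hk : 0 < k) (i j : Fin (2 * p)) (c : Fin (2 * p) → ℝ)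
    (hc : ∀ i, c (Fin.rev i) = - c i) :
    rq hk i j ⟨cst k (2 * p) c, c, hc, rfl⟩ = c i - c j := by
  show rd hk (cst k (2 * p) c) i - rd hk (cst k (2 * p) c) j = _
  rw [rd_cst]

theorem rq_ext (hk : 0 < k) {f g : bU p k →ₗ[ℝ] ℝ}
    (h : ∀ (c : Fin (2 * p) → ℝ) (hc : ∀ i, c (Fin.rev i) = - c i),
      f ⟨cst k (2 * p) c, c, hc, rfl⟩ = g ⟨cst k (2 * p) c, c, hc, rfl⟩) : f = g := by
  refine LinearMap.ext ?_
  rintro ⟨_, c, hc, rfl⟩
  exact h c hc

theorem rq_nonprop (hk : 0 < k) {l l' : RI (2 * p)} (hne : l ≠ l') (t : ℝ) :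
    rq hk l.1.1 l.1.2 ≠ t • rq hk l'.1.1 l'.1.2 := by
  intro ht
  refine nonprop_aux (even_two_mul p) hne t fun c hc => ?_
  have h1 := LinearMap.congr_fun ht ⟨cst k (2 * p) c, c, hc, rfl⟩
  rw [LinearMap.smul_apply, rq_apply hk _ _ c hc, rq_apply hk _ _ c hc, smul_eq_mul] at h1
  exact h1

theorem rq_inj (hk : 0 < k) {l l' : RI (2 * p)}
    (h : rq hk l.1.1 l.1.2 = rq hk l'.1.1 l'.1.2) : l = l' := by
  by_contra hne
  exact rq_nonprop hk hne 1 (by rw [one_smul]; exact h)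

/-- the vector with the values `p - 1/2 - i` -/
noncomputable def pv (p : ℕ) : Fin (2 * p) → ℝ := fun i => (((2 * p : ℕ) : ℝ) - 1) / 2 - ((i : ℕ) : ℝ)

theorem pv_rev (i : Fin (2 * p)) : pv p (Fin.rev i) = - pv p i := by
  have h1 : ((Fin.rev i : ℕ) : ℝ) = ((2 * p : ℕ) : ℝ) - ((i : ℕ) + 1) := by
    rw [Fin.val_rev, Nat.cast_sub (by have := i.2; omega), Nat.cast_add, Nat.cast_one]
  unfold pv
  rw [h1]
  ring

theorem rq_pv (hk : 0 < k) (i j : Fin (2 * p)) :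
    rq hk i j ⟨cst k (2 * p) (pv p), pv p, pv_rev, rfl⟩ = ((j : ℕ) : ℝ) - ((i : ℕ) : ℝ) := by
  rw [rq_apply hk i j (pv p) pv_rev]
  unfold pv
  ring

theorem rq_add (hk : 0 < k) (i h j : Fin (2 * p)) :
    rq hk i h + rq hk h j = rq hk i j := by
  refine rq_ext hk fun c hc => ?_
  rw [LinearMap.add_apply, rq_apply hk _ _ c hc, rq_apply hk _ _ c hc, rq_apply hk _ _ c hc]
  ring

theorem rq_rev (hk : 0 < k) (i j : Fin (2 * p)) :
    rq hk (Fin.rev j) (Fin.rev i) = rq hk i j := by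
  refine rq_ext hk fun c hc => ?_
  rw [rq_apply hk _ _ c hc, rq_apply hk _ _ c hc, hc, hc]
  ring

theorem dia_TT (c : Fin (2 * p) → ℝ) (hc : ∀ i, c (Fin.rev i) = - c i) (i j : Fin (2 * p))
    (a : Matrix (Fin k) (Fin k) ℝ) :
    dia k c * TT k ε i j a - TT k ε i j a * dia k c = (c i - c j) • TT k ε i j a := by
  refine Matrix.ext fun u v => ?_
  rw [Matrix.sub_apply, dia, Matrix.diagonal_mul, Matrix.mul_diagonal, Matrix.smul_mul,
    Matrix.mul_smul, Matrix.one_mul, Matrix.mul_one, ← sub_smul, Matrix.smul_apply, TT_apply]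
  by_cases h1 : u = i ∧ v = j
  · rw [if_pos h1, h1.1, h1.2]
  · by_cases h2 : u = Fin.rev j ∧ v = Fin.rev i
    · rw [if_neg h1, if_pos h2, h2.1, h2.2, hc, hc]
      congr 1
      ring
    · rw [if_neg h1, if_neg h2, smul_zero, smul_zero]

/-- rational bases of the root spaces -/
structure Bs (p : ℕ) {k : ℕ} (𝔻 : Subalgebra ℝ (Matrix (Fin k) (Fin k) ℝ)) (ε : ℝ) where
  d : RI (2 * p) → ℕ
  b : (q : RI (2 * p)) → Fin (d q) → Matrix (Fin k) (Fin k) ℝ
  li : ∀ q, LinearIndependent ℝ (b q)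
  sp : ∀ q, Submodule.span ℝ (Set.range (b q)) = VV p 𝔻 ε q.1.1 q.1.2
  rat : ∀ q β i j, ∃ r : ℚ, b q β i j = (r : ℝ)

theorem exists_Bs (p : ℕ) (hε : ε * ε = 1) (hH : Herm 𝔻 ε) : Nonempty (Bs p 𝔻 ε) := by
  choose d b h1 h2 h3 using fun q : RI (2 * p) => VV_basis (p := p) hε hH q.1.1 q.1.2
  exact ⟨⟨d, b, h1, h2, h3⟩⟩

section

variable (B : Bs p 𝔻 ε)

/-- the index set -/
abbrev Bs.I : Type := Σ q : RI (2 * p), Fin (B.d q)

/-- the root vectors -/
noncomputable def Bs.T (l : B.I) :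
    Matrix (Fin (2 * p)) (Fin (2 * p)) (Matrix (Fin k) (Fin k) ℝ) :=
  TT k ε l.1.1.1 l.1.1.2 (B.b l.1 l.2)

theorem Bs.mem (q : RI (2 * p)) (β : Fin (B.d q)) : B.b q β ∈ VV p 𝔻 ε q.1.1 q.1.2 := by
  rw [← B.sp q]
  exact Submodule.subset_span ⟨β, rfl⟩

theorem Bs.sum_entry (g : B.I → ℝ) (q : RI (2 * p)) :
    (∑ l : B.I, g l • B.T l) q.1.1 q.1.2 = ∑ β, g ⟨q, β⟩ • B.b q β := by
  rw [Fintype.sum_sigma, Matrix.sum_apply, Finset.sum_eq_single q]
  · rw [Matrix.sum_apply]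
    refine Finset.sum_congr rfl fun β _ => ?_
    rw [Matrix.smul_apply, Bs.T, TT_fund', if_pos rfl]
  · intro q' _ hne
    rw [Matrix.sum_apply]
    refine Finset.sum_eq_zero fun β _ => ?_
    rw [Matrix.smul_apply, Bs.T, TT_fund', if_neg (Ne.symm hne), smul_zero]
  · intro h
    exact absurd (mem_univ _) h

theorem Bs.lin_T : LinearIndependent ℝ B.T := by
  rw [Fintype.linearIndependent_iff]
  rintro g hg ⟨q, β⟩
  have h1 := congrFun (congrFun hg q.1.1) q.1.2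
  rw [B.sum_entry] at h1
  exact Fintype.linearIndependent_iff.1 (B.li q) (fun β => g ⟨q, β⟩) h1 β

theorem Bs.TT_span (q : RI (2 * p)) {a : Matrix (Fin k) (Fin k) ℝ}
    (ha : a ∈ VV p 𝔻 ε q.1.1 q.1.2) :
    TT k ε q.1.1 q.1.2 a ∈ Submodule.span ℝ (Set.range B.T) := by
  rw [← B.sp q] at ha
  induction ha using Submodule.span_induction with
  | mem x hx =>
    obtain ⟨β, rfl⟩ := hx
    exact Submodule.subset_span ⟨⟨q, β⟩, rfl⟩
  | zero => rw [map_zero]; exact Submodule.zero_mem _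
  | add x y _ _ hx hy => rw [map_add]; exact Submodule.add_mem _ hx hy
  | smul c x _ hx => rw [map_smul]; exact Submodule.smul_mem _ _ hx

theorem entry_VV (hε : ε * ε = 1)
    {x : Matrix (Fin (2 * p)) (Fin (2 * p)) (Matrix (Fin k) (Fin k) ℝ)} (hx : x ∈ nU p 𝔻 ε)
    (i j : Fin (2 * p)) : x i j ∈ VV p 𝔻 ε i j := by
  refine ⟨hx.1.1 i j, fun h => ?_⟩
  have h1 := hx.2 i j
  rw [h, Fin.rev_rev, s_rev] at h1
  rw [h]
  have h2 : (-ε) • x i (Fin.rev i) = (-ε * -ε) • (x i (Fin.rev i))ᵀ := by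
    rw [← smul_smul, ← h1]
  rw [h2, show -ε * -ε = 1 by linarith, one_smul]

theorem Bs.span_T (hε : ε * ε = 1) (ht : ∀ a ∈ 𝔻, aᵀ ∈ 𝔻) :
    Submodule.span ℝ (Set.range B.T) = nU p 𝔻 ε := by
  apply le_antisymm
  · rw [Submodule.span_le]
    rintro _ ⟨l, rfl⟩
    exact TT_mem hε ht l.1.2.1 (B.mem l.1 l.2)
  · intro x hx
    have h3 : x = ∑ q : RI (2 * p), TT k ε q.1.1 q.1.2 (x q.1.1 q.1.2) := by
      refine ext_fund hε hx ?_ fun l => ?_
      · exact Submodule.sum_mem _ fun q _ => TT_mem hε ht q.2.1 (entry_VV hε hx _ _)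
      · rw [Matrix.sum_apply, Finset.sum_eq_single l]
        · rw [TT_fund', if_pos rfl]
        · intro q' _ hne
          rw [TT_fund', if_neg (Ne.symm hne)]
        · intro h
          exact absurd (mem_univ _) h
    rw [h3]
    exact Submodule.sum_mem _ fun q _ => B.TT_span q (entry_VV hε hx _ _)

/-- the span of the brackets of root vectors with sum of the roots `rq q` -/
def Bs.Br (hk : 0 < k) (i j : Fin (2 * p)) :
    Set (Matrix (Fin (2 * p)) (Fin (2 * p)) (Matrix (Fin k) (Fin k) ℝ)) :=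
  {z | ∃ w w' : B.I, w.1 ≠ w'.1 ∧
    rq hk w.1.1.1 w.1.1.2 + rq hk w'.1.1.1 w'.1.1.2 = rq hk i j ∧
    z = B.T w * B.T w' - B.T w' * B.T w}

theorem Bs.br_span (hk : 0 < k) {i j : Fin (2 * p)} (q1 q2 : RI (2 * p)) (hne : q1 ≠ q2)
    (hq : rq hk q1.1.1 q1.1.2 + rq hk q2.1.1 q2.1.2 = rq hk i j)
    {a b : Matrix (Fin k) (Fin k) ℝ} (ha : a ∈ VV p 𝔻 ε q1.1.1 q1.1.2)
    (hb : b ∈ VV p 𝔻 ε q2.1.1 q2.1.2) :
    TT k ε q1.1.1 q1.1.2 a * TT k ε q2.1.1 q2.1.2 b -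
      TT k ε q2.1.1 q2.1.2 b * TT k ε q1.1.1 q1.1.2 a ∈ Submodule.span ℝ (B.Br hk i j) := by
  rw [← B.sp q1] at ha
  rw [← B.sp q2] at hb
  induction ha using Submodule.span_induction with
  | mem x hx =>
    obtain ⟨β, rfl⟩ := hx
    induction hb using Submodule.span_induction with
    | mem y hy =>
      obtain ⟨β', rfl⟩ := hy
      exact Submodule.subset_span ⟨⟨q1, β⟩, ⟨q2, β'⟩, hne, hq, rfl⟩
    | zero => rw [map_zero, mul_zero, zero_mul, sub_zero]; exact Submodule.zero_mem _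
    | add x y _ _ hx hy =>
      rw [map_add, mul_add, add_mul, add_sub_add_comm]
      exact Submodule.add_mem _ hx hy
    | smul c x _ hx =>
      rw [map_smul, mul_smul_comm, smul_mul_assoc, ← smul_sub]
      exact Submodule.smul_mem _ _ hx
  | zero => rw [map_zero, mul_zero, zero_mul, sub_zero]; exact Submodule.zero_mem _
  | add x y _ _ hx hy =>
    rw [map_add, mul_add, add_mul, add_sub_add_comm]
    exact Submodule.add_mem _ hx hy
  | smul c x _ hx =>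
    rw [map_smul, mul_smul_comm, smul_mul_assoc, ← smul_sub]
    exact Submodule.smul_mem _ _ hx

theorem mem_VV' {i j : Fin (2 * p)} {a : Matrix (Fin k) (Fin k) ℝ} (ha : a ∈ 𝔻)
    (h : (i : ℕ) + j + 1 ≠ 2 * p) : a ∈ VV p 𝔻 ε i j := by
  refine ⟨ha, fun hh => ?_⟩
  exfalso
  apply h
  rw [hh, Fin.val_rev]
  have := i.2
  omega

theorem Bs.gen (hk : 0 < k) (hε : ε * ε = 1) (hH : Herm 𝔻 ε) (q : RI (2 * p))
    (hv : (q.1.1 : ℕ) + 2 ≤ q.1.2) {a : Matrix (Fin k) (Fin k) ℝ}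
    (ha : a ∈ VV p 𝔻 ε q.1.1 q.1.2) :
    TT k ε q.1.1 q.1.2 a ∈ Submodule.span ℝ (B.Br hk q.1.1 q.1.2) := by
  have ht := hH.2.1
  obtain ⟨g, hg, g', hg', hg0, hg2, hgg⟩ := exists_g hH
  obtain ⟨⟨i, j⟩, h1, h2⟩ := q
  simp only at h1 h2 hv ha ⊢
  rw [Fin.lt_def] at h1
  have hi := i.2
  have hj := j.2
  by_cases hA : (j : ℕ) < p
  · -- type (A)
    obtain ⟨h, hh⟩ : ∃ h : Fin (2 * p), (h : ℕ) = i + 1 := ⟨⟨i + 1, by omega⟩, rfl⟩
    have e := br1 hε ht (i := i) (h := h) (j := j) (by rw [Fin.lt_def]; omega)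
      (by rw [Fin.lt_def]; omega) hA ha.1
    rw [← e]
    refine B.br_span hk ⟨(i, h), by rw [Fin.lt_def]; simp only; omega, by simp only; omega⟩
      ⟨(h, j), by rw [Fin.lt_def]; simp only; omega, by simp only; omega⟩ ?_ ?_ ?_ ?_
    · intro heq
      have h5 : i = h := congrArg (fun q : RI (2 * p) => q.1.1) heq
      exact ne1 (by omega) h5
    · exact rq_add hk i h j
    · exact mem_VV' 𝔻.one_mem (by simp only; omega)
    · exact mem_VV' ha.1 (by simp only; omega)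
  · by_cases hC : (i : ℕ) + j + 1 = 2 * p
    · -- type (L)
      have hji : j = Fin.rev i := by rw [Fin.ext_iff, Fin.val_rev]; omega
      obtain ⟨h, hh⟩ : ∃ h : Fin (2 * p), (h : ℕ) = i + 1 := ⟨⟨i + 1, by omega⟩, rfl⟩
      have hih : i < h := by rw [Fin.lt_def]; omega
      have hih2 : i < Fin.rev h := by rw [Fin.lt_def, Fin.val_rev]; omega
      have haD : (1 / 2 : ℝ) • a ∈ 𝔻 := 𝔻.smul_mem ha.1 _
      have m1 : (1 : Matrix (Fin k) (Fin k) ℝ) ∈ VV p 𝔻 ε i h :=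
        mem_VV' 𝔻.one_mem (by omega)
      have m2 : (1 / 2 : ℝ) • a ∈ VV p 𝔻 ε i (Fin.rev h) :=
        mem_VV' haD (by rw [Fin.val_rev]; omega)
      have e : TT k ε i h (1 : Matrix (Fin k) (Fin k) ℝ) * TT k ε i (Fin.rev h) ((1 / 2 : ℝ) • a) -
          TT k ε i (Fin.rev h) ((1 / 2 : ℝ) • a) * TT k ε i h 1 = TT k ε i j a := by
        refine Matrix.ext fun u v => ?_
        rw [br3 ε hih hih2, TT_apply, hji, Fin.rev_rev]
        have hs1 : sU p ε i = 1 := if_pos (by omega)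
        have hs2 : sU p ε h = 1 := if_pos (by omega)
        have hs3 : sU p ε (Fin.rev h) = ε := if_neg (by rw [Fin.val_rev]; omega)
        by_cases h5 : u = i ∧ v = Fin.rev i
        · rw [if_pos h5, if_pos h5, hs1, hs2, hs3, one_mul, one_mul, one_mul, one_smul,
            Matrix.transpose_one, mul_one, Matrix.transpose_smul, ha.2 hji, smul_smul, smul_smul,
            ← add_smul]
          have : -ε * (1 / 2) * -ε + 1 / 2 = 1 := by linear_combination (1 / 2) * hε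
          rw [this, one_smul]
        · rw [if_neg h5, if_neg h5, if_neg h5]
      rw [← e]
      refine B.br_span hk ⟨(i, h), hih, by simp only; omega⟩
        ⟨(i, Fin.rev h), hih2, by simp only [Fin.val_rev]; omega⟩ ?_ ?_ m1 m2
      · intro heq
        have h5 : h = Fin.rev h := congrArg (fun q : RI (2 * p) => q.1.2) heq
        exact ne_rev (even_two_mul p) h h5
      · show rq hk i h + rq hk i (Fin.rev h) = rq hk i j
        have h6 : rq hk i (Fin.rev h) = rq hk h (Fin.rev i) := by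
          have := rq_rev (p := p) hk i (Fin.rev h)
          rw [Fin.rev_rev] at this
          exact this.symm
        rw [h6, hji]
        exact rq_add hk i h _
    · -- type (C)
      obtain ⟨h, hh⟩ : ∃ h : Fin (2 * p), (h : ℕ) = 2 * p - 1 - j := ⟨⟨2 * p - 1 - j, by omega⟩, rfl⟩
      have hjh : j = Fin.rev h := by rw [Fin.ext_iff, Fin.val_rev]; omega
      have hih : i < h := by rw [Fin.lt_def]; omega
      have haD : a * g' ∈ 𝔻 := 𝔻.mul_mem ha.1 hg'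
      have e := br2 hε ht hih (by omega) haD hg hg2
      rw [mul_assoc, hgg, mul_one] at e
      rw [hjh, ← e]
      refine B.br_span hk ⟨(i, h), hih, by simp only; omega⟩
        ⟨(h, Fin.rev h), by rw [Fin.lt_def]; simp only [Fin.val_rev]; omega, by
          simp only [Fin.val_rev]; omega⟩ ?_ ?_ ?_ ?_
      · intro heq
        have h5 : i = h := congrArg (fun q : RI (2 * p) => q.1.1) heq
        exact hih.ne h5
      · exact rq_add hk i h _
      · exact mem_VV' haD (by simp only; omega)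
      · exact ⟨hg, fun _ => hg2⟩

theorem tmul (a X : Matrix (Fin k) (Fin k) ℝ) : (X * aᵀ)ᵀ = a * Xᵀ := by
  rw [Matrix.transpose_mul, Matrix.transpose_transpose]

/-- climbing to the top root -/
theorem climb_aux (hε : ε * ε = 1) (hH : Herm 𝔻 ε) (q : RI (2 * p))
    (hq : ¬ ((q.1.1 : ℕ) = 0 ∧ (q.1.2 : ℕ) + 1 = 2 * p)) {a : Matrix (Fin k) (Fin k) ℝ}
    (ha : a ∈ VV p 𝔻 ε q.1.1 q.1.2)
    (h : ∀ q' : RI (2 * p), q' ≠ q → ∀ b ∈ VV p 𝔻 ε q'.1.1 q'.1.2,
      TT k ε q.1.1 q.1.2 a * TT k ε q'.1.1 q'.1.2 b -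
        TT k ε q'.1.1 q'.1.2 b * TT k ε q.1.1 q.1.2 a = 0) : a = 0 := by
  have ht := hH.2.1
  obtain ⟨⟨i, j⟩, h1, h2⟩ := q
  simp only at h1 h2 hq ha h ⊢
  rw [Fin.lt_def] at h1
  have hi := i.2
  have hj := j.2
  obtain ⟨z, hz⟩ : ∃ z : Fin (2 * p), (z : ℕ) = 0 := ⟨⟨0, by omega⟩, rfl⟩
  by_cases h3 : (i : ℕ) = 0
  · have hiz : i = z := Fin.ext (by rw [h3, hz])
    subst hiz
    have h4 : (j : ℕ) + 1 ≠ 2 * p := fun h => hq ⟨h3, h⟩
    by_contra ha0
    obtain ⟨g, hg, g', hg', hg0, hg2, hgg⟩ := exists_g hH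
    have hta : aᵀ ≠ 0 := fun h0 => ha0 (by rw [← Matrix.transpose_transpose a, h0,
      Matrix.transpose_zero])
    obtain ⟨c, hc, hc1⟩ := hH.2.2.1 aᵀ (ht a ha.1) hta
    have hc2 : c * aᵀ = 1 := mul_eq_one_comm.1 hc1
    have hij1 : i < j := by rw [Fin.lt_def]; omega
    have hij2 : i < Fin.rev j := by rw [Fin.lt_def, Fin.val_rev]; omega
    have hb : ((1 / 2 : ℝ) • g) * c ∈ 𝔻 := 𝔻.mul_mem (𝔻.smul_mem hg _) hc
    have h5 := h ⟨(i, Fin.rev j), hij2, by simp only [Fin.val_rev]; omega⟩ (by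
      intro heq
      have h6 : Fin.rev j = j := congrArg (fun q : RI (2 * p) => q.1.2) heq
      exact ne_rev (even_two_mul p) j h6.symm) (((1 / 2 : ℝ) • g) * c)
      (mem_VV' hb (by simp only [Fin.val_rev]; omega))
    have h6 := congrFun (congrFun h5 i) (Fin.rev i)
    simp only at h6
    rw [br3 ε hij1 hij2, if_pos ⟨rfl, rfl⟩] at h6
    have e1 : ((1 / 2 : ℝ) • g) * c * aᵀ = (1 / 2 : ℝ) • g := by
      rw [mul_assoc, hc2, mul_one]
    have e2 : a * (((1 / 2 : ℝ) • g) * c)ᵀ = (1 / 2 : ℝ) • ((-ε) • g) := by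
      have : a * (((1 / 2 : ℝ) • g) * c)ᵀ = (((1 / 2 : ℝ) • g) * c * aᵀ)ᵀ := (tmul a _).symm
      rw [this, e1, Matrix.transpose_smul, hg2]
    rw [e1, e2, smul_smul, smul_smul, smul_smul, ← add_smul] at h6
    have hs1 : sU p ε i = 1 := if_pos (by omega)
    have hs2 : sU p ε (Fin.rev j) = ε * sU p ε j := by
      have e3 := s_rev ε j
      have e4 := sU_sq ε hε j
      linear_combination (sU p ε j) * e3 - (sU p ε (Fin.rev j)) * e4
    have e5 : -(sU p ε i * sU p ε (Fin.rev j)) * (1 / 2 * -ε) + sU p ε i * sU p ε j * (1 / 2) =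
        sU p ε j := by
      rw [hs1, hs2]
      linear_combination (1 / 2) * sU p ε j * hε
    have e6 : (sU p ε j) • g = 0 := by
      rw [← e5]
      rw [show -(sU p ε i * sU p ε (Fin.rev j)) * (1 / 2 * -ε) =
        -(sU p ε i * sU p ε (Fin.rev j)) * (1 / 2) * -ε by ring] at *
      exact h6
    have e7 : g = 0 := by
      have e8 : (sU p ε j) • ((sU p ε j) • g) = 0 := by rw [e6, smul_zero]
      rwa [smul_smul, sU_sq ε hε, one_smul] at e8
    exact hg0 e7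
  · have h5 := h ⟨(z, i), by rw [Fin.lt_def]; simp only; omega, by simp only; omega⟩ (by
      intro heq
      have h6 : z = i := congrArg (fun q : RI (2 * p) => q.1.1) heq
      exact h3 (by rw [← h6]; exact hz)) 1 (mem_VV' 𝔻.one_mem (by simp only; omega))
    have h6 := congrFun (congrFun h5 z) j
    simp only at h6
    rw [cl1 ε (ne1 (by omega)) (ne1 (by rw [Fin.val_rev]; omega))] at h6
    exact neg_eq_zero.1 h6

theorem Bs.nonempty {q : RI (2 * p)} {a : Matrix (Fin k) (Fin k) ℝ}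
    (ha : a ∈ VV p 𝔻 ε q.1.1 q.1.2) (ha0 : a ≠ 0) : Nonempty (Fin (B.d q)) := by
  by_contra hc
  rw [not_nonempty_iff] at hc
  rw [← B.sp q, Set.range_eq_empty, Submodule.span_empty, Submodule.mem_bot] at ha
  exact ha0 ha

theorem Bs.rat_e (hε : ε * ε = 1) (l : B.I) (x y : Fin (2 * p * k)) :
    ∃ q : ℚ, blk k (2 * p) (B.T l) x y = (q : ℝ) := by
  obtain ⟨⟨i, j⟩, rfl⟩ := finProdFinEquiv.surjective x
  obtain ⟨⟨i', j'⟩, rfl⟩ := finProdFinEquiv.surjective y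
  rw [blk_apply, Bs.T, TT_apply]
  by_cases h1 : i = l.1.1.1 ∧ i' = l.1.1.2
  · rw [if_pos h1]
    exact B.rat _ _ _ _
  · rw [if_neg h1]
    by_cases h2 : i = Fin.rev l.1.1.2 ∧ i' = Fin.rev l.1.1.1
    · rw [if_pos h2]
      obtain ⟨q1, e1⟩ := s_rat hε (p := p) l.1.1.1
      obtain ⟨q2, e2⟩ := s_rat hε (p := p) l.1.1.2
      obtain ⟨q3, e3⟩ := B.rat l.1 l.2 j' j
      refine ⟨-(q1 * q2) * q3, ?_⟩
      rw [Matrix.smul_apply, Matrix.transpose_apply, e1, e2, e3, smul_eq_mul]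
      push_cast
      ring
    · rw [if_neg h2]
      exact ⟨0, by rw [Matrix.zero_apply, Rat.cast_zero]⟩

/-- the space `n` of the datum -/
noncomputable def nUD (p : ℕ) {k : ℕ} (𝔻 : Subalgebra ℝ (Matrix (Fin k) (Fin k) ℝ)) (ε : ℝ)
    (hε : ε * ε = 1) : Submodule ℝ (Matrix (Fin (2 * p * k)) (Fin (2 * p * k)) ℝ) :=
  (datU p 𝔻 ε hε).n

theorem mem_nUD (hε : ε * ε = 1) {z : Matrix (Fin (2 * p * k)) (Fin (2 * p * k)) ℝ} :
    z ∈ nUD p 𝔻 ε hε ↔ ∃ x ∈ nU p 𝔻 ε, z = blk k (2 * p) x := Iff.rfl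

theorem map_blk (A : Set (Matrix (Fin (2 * p)) (Fin (2 * p)) (Matrix (Fin k) (Fin k) ℝ)))
    {x : Matrix (Fin (2 * p)) (Fin (2 * p)) (Matrix (Fin k) (Fin k) ℝ)}
    (hx : x ∈ Submodule.span ℝ A) (A' : Set (Matrix (Fin (2 * p * k)) (Fin (2 * p * k)) ℝ))
    (h : ∀ y ∈ A, blk k (2 * p) y ∈ A') : blk k (2 * p) x ∈ Submodule.span ℝ A' := by
  induction hx using Submodule.span_induction with
  | mem y hy => exact Submodule.subset_span (h y hy)
  | zero => rw [map_zero]; exact Submodule.zero_mem _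
  | add x y _ _ hx hy => rw [map_add]; exact Submodule.add_mem _ hx hy
  | smul c x _ hx => rw [map_smul]; exact Submodule.smul_mem _ _ hx

theorem Bs.span_e (hε : ε * ε = 1) (ht : ∀ a ∈ 𝔻, aᵀ ∈ 𝔻) :
    Submodule.span ℝ (Set.range fun l : B.I => blk k (2 * p) (B.T l)) = nUD p 𝔻 ε hε := by
  apply le_antisymm
  · rw [Submodule.span_le]
    rintro _ ⟨l, rfl⟩
    exact (mem_nUD hε).2 ⟨_, TT_mem hε ht l.1.2.1 (B.mem l.1 l.2), rfl⟩
  · intro z hz
    obtain ⟨x, hx, rfl⟩ := (mem_nUD hε).1 hz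
    rw [← B.span_T hε ht] at hx
    refine map_blk _ hx _ ?_
    rintro _ ⟨l, rfl⟩
    exact ⟨l, rfl⟩

theorem Bs.lin_e : LinearIndependent ℝ (fun l : B.I => blk k (2 * p) (B.T l)) := by
  have h := B.lin_T.map' (blk k (2 * p)).toLinearMap (LinearMap.ker_eq_bot.2
    (blk k (2 * p)).injective)
  exact h

theorem Bs.wt_e (hk : 0 < k) (l : B.I) (c : bU p k) :
    diagonal (c : Fin (2 * p * k) → ℝ) * blk k (2 * p) (B.T l) -
      blk k (2 * p) (B.T l) * diagonal (c : Fin (2 * p * k) → ℝ) =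
      rq hk l.1.1.1 l.1.1.2 c • blk k (2 * p) (B.T l) := by
  obtain ⟨_, c, hc, rfl⟩ := c
  rw [rq_apply hk _ _ c hc]
  show diagonal (cst k (2 * p) c) * _ - _ * diagonal (cst k (2 * p) c) = _
  rw [← blk_dia, ← map_mul, ← map_mul, ← map_sub, ← map_smul, Bs.T, dia_TT c hc]

theorem pos_e (hk : 0 < k) : ∃ a : bU p k, ∀ l : B.I, 0 < rq hk l.1.1.1 l.1.1.2 a := by
  refine ⟨⟨cst k (2 * p) (pv p), pv p, pv_rev, rfl⟩, fun l => ?_⟩
  rw [rq_pv]
  have h1 : ((l.1.1.1 : ℕ) : ℝ) < ((l.1.1.2 : ℕ) : ℝ) := by exact_mod_cast l.1.2.1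
  linarith

theorem sep_e (hk : 0 < k) (hH : Herm 𝔻 ε) (a : bU p k)
    (ha : ∀ l : B.I, rq hk l.1.1.1 l.1.1.2 a = 0) : a = 0 := by
  haveI : Nonempty (Fin k) := ⟨⟨0, hk⟩⟩
  obtain ⟨g, hg, g', hg', hg0, hg2, hgg⟩ := exists_g hH
  obtain ⟨_, c, hc, rfl⟩ := a
  have h1 : c = 0 := by
    refine sep_aux (even_two_mul p) c hc fun q => ?_
    have h2 : Nonempty (Fin (B.d q)) := by
      by_cases h3 : q.1.2 = Fin.rev q.1.1
      · exact B.nonempty (a := g) ⟨hg, fun _ => hg2⟩ hg0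
      · exact B.nonempty (a := 1) ⟨𝔻.one_mem, fun h => absurd h h3⟩ one_ne_zero
    obtain ⟨β⟩ := h2
    have h4 := ha ⟨q, β⟩
    rwa [rq_apply hk _ _ c hc] at h4
  subst h1
  exact Subtype.ext rfl

theorem Bs.gen_e (hk : 0 < k) (hε : ε * ε = 1) (hH : Herm 𝔻 ε) (t l l' : B.I) (p' q' : ℕ)
    (hp' : 1 ≤ p') (hq' : 1 ≤ q')
    (h : rq hk t.1.1.1 t.1.1.2 = (p' : ℝ) • rq hk l.1.1.1 l.1.1.2 +
      (q' : ℝ) • rq hk l'.1.1.1 l'.1.1.2) :
    blk k (2 * p) (B.T t) ∈ Submodule.span ℝ {z | ∃ w w' : B.I,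
      rq hk w.1.1.1 w.1.1.2 ≠ rq hk w'.1.1.1 w'.1.1.2 ∧
      rq hk w.1.1.1 w.1.1.2 + rq hk w'.1.1.1 w'.1.1.2 = rq hk t.1.1.1 t.1.1.2 ∧
      z = blk k (2 * p) (B.T w) * blk k (2 * p) (B.T w') -
        blk k (2 * p) (B.T w') * blk k (2 * p) (B.T w)} := by
  have h1 := LinearMap.congr_fun h ⟨cst k (2 * p) (pv p), pv p, pv_rev, rfl⟩
  rw [LinearMap.add_apply, LinearMap.smul_apply, LinearMap.smul_apply, rq_pv, rq_pv, rq_pv,
    smul_eq_mul, smul_eq_mul] at h1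
  have h2 : (t.1.1.1 : ℕ) + 2 ≤ t.1.1.2 := by
    have e1 : ((l.1.1.1 : ℕ) : ℝ) + 1 ≤ ((l.1.1.2 : ℕ) : ℝ) := by exact_mod_cast l.1.2.1
    have e2 : ((l'.1.1.1 : ℕ) : ℝ) + 1 ≤ ((l'.1.1.2 : ℕ) : ℝ) := by exact_mod_cast l'.1.2.1
    have e3 : (1 : ℝ) ≤ (p' : ℝ) := by exact_mod_cast hp'
    have e4 : (1 : ℝ) ≤ (q' : ℝ) := by exact_mod_cast hq'
    have e5 : ((t.1.1.1 : ℕ) : ℝ) + 2 ≤ ((t.1.1.2 : ℕ) : ℝ) := by nlinarith
    exact_mod_cast e5
  refine map_blk _ (B.gen hk hε hH t.1 h2 (B.mem t.1 t.2)) _ ?_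
  rintro _ ⟨w, w', h3, h4, rfl⟩
  refine ⟨w, w', fun h5 => h3 (rq_inj hk h5), h4, ?_⟩
  rw [map_sub, map_mul, map_mul]

theorem Bs.climb_e (hk : 0 < k) (hε : ε * ε = 1) (hH : Herm 𝔻 ε) (l : B.I)
    (hl : ¬ ((l.1.1.1 : ℕ) = 0 ∧ (l.1.1.2 : ℕ) + 1 = 2 * p))
    (x : Matrix (Fin (2 * p * k)) (Fin (2 * p * k)) ℝ)
    (hx : x ∈ Submodule.span ℝ ((fun l : B.I => blk k (2 * p) (B.T l)) ''
      {l' | rq hk l'.1.1.1 l'.1.1.2 = rq hk l.1.1.1 l.1.1.2}))
    (h : ∀ w : B.I, rq hk w.1.1.1 w.1.1.2 ≠ rq hk l.1.1.1 l.1.1.2 →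
      x * blk k (2 * p) (B.T w) - blk k (2 * p) (B.T w) * x = 0) : x = 0 := by
  obtain ⟨a, ha, rfl⟩ : ∃ a ∈ VV p 𝔻 ε l.1.1.1 l.1.1.2,
      x = blk k (2 * p) (TT k ε l.1.1.1 l.1.1.2 a) := by
    clear h
    induction hx using Submodule.span_induction with
    | mem y hy =>
      obtain ⟨⟨q, β⟩, h1, rfl⟩ := hy
      have h2 : q = l.1 := rq_inj hk h1
      subst h2
      exact ⟨B.b l.1 β, B.mem _ _, rfl⟩
    | zero => exact ⟨0, Submodule.zero_mem _, by rw [map_zero, map_zero]⟩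
    | add y z _ _ hy hz =>
      obtain ⟨a, ha, rfl⟩ := hy
      obtain ⟨b, hb, rfl⟩ := hz
      exact ⟨a + b, Submodule.add_mem _ ha hb, by rw [map_add, map_add]⟩
    | smul c y _ hy =>
      obtain ⟨a, ha, rfl⟩ := hy
      exact ⟨c • a, Submodule.smul_mem _ _ ha, by rw [map_smul, map_smul]⟩
  have h1 : a = 0 := by
    refine climb_aux hε hH l.1 hl ha fun q' hq' b hb => ?_
    rw [← B.sp q'] at hb
    induction hb using Submodule.span_induction with
    | mem y hy =>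
      obtain ⟨β, rfl⟩ := hy
      have h2 := h ⟨q', β⟩ (fun h3 => hq' (rq_inj hk h3))
      rw [← map_mul, ← map_mul, ← map_sub] at h2
      exact (blk k (2 * p)).injective (by rw [map_zero]; exact h2)
    | zero => rw [map_zero, mul_zero, zero_mul, sub_zero]
    | add y z _ _ hy hz => rw [map_add, mul_add, add_mul, add_sub_add_comm, hy, hz, add_zero]
    | smul c y _ hy => rw [map_smul, mul_smul_comm, smul_mul_assoc, ← smul_sub, hy, smul_zero]
  rw [h1, map_zero, map_zero]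

end

theorem scal_e (κ : Unit → ℝ) (hk : 0 < k) : ∃ S : bU p k →ₗ[ℝ] bU p k,
    ∀ (i j : Fin (2 * p)) (a : bU p k), rq hk i j (S a) = κ () * rq hk i j a :=
  ⟨κ () • LinearMap.id, fun i j a => by
    rw [LinearMap.smul_apply, LinearMap.id_apply, map_smul, smul_eq_mul]⟩

/-- **MSU**. -/
theorem msu : MsuStmt := by
  intro k p 𝔻 ε hε hk hp hH
  haveI : Nonempty (Fin k) := ⟨⟨0, hk⟩⟩
  obtain ⟨B⟩ := exists_Bs p hε hH
  have ht := hH.2.1
  obtain ⟨g, hg, g', hg', hg0, hg2, hgg⟩ := exists_g hH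
  let z : Fin (2 * p) := ⟨0, by omega⟩
  have hz : (z : ℕ) = 0 := rfl
  let q0 : RI (2 * p) := ⟨(z, Fin.rev z), by rw [Fin.lt_def, Fin.val_rev, hz]; omega, by
    simp only [Fin.val_rev, hz]; omega⟩
  let q1 : RI (2 * p) := ⟨(z, ⟨1, by omega⟩), by rw [Fin.lt_def, hz]; simp, by
    simp only [hz]; omega⟩
  have n0 : Nonempty (Fin (B.d q0)) := B.nonempty (a := g) ⟨hg, fun _ => hg2⟩ hg0
  have n1 : Nonempty (Fin (B.d q1)) := B.nonempty (a := 1) (mem_VV' 𝔻.one_mem (by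
    show (z : ℕ) + 1 + 1 ≠ 2 * p
    rw [hz]; omega)) one_ne_zero
  obtain ⟨β0⟩ := n0
  obtain ⟨β1⟩ := n1
  have hq01 : q1 ≠ q0 := by
    intro h
    have h1 : (⟨1, by omega⟩ : Fin (2 * p)) = Fin.rev z := congrArg (fun q : RI (2 * p) => q.1.2) h
    have h2 := congrArg Fin.val h1
    rw [Fin.val_rev, hz] at h2
    simp only at h2
    omega
  exact ⟨{
    ι := B.I
    fin := inferInstance
    dec := Classical.decEq _
    e := fun l => blk k (2 * p) (B.T l)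
    rat := B.rat_e hε
    span_e := B.span_e hε ht
    lin := B.lin_e
    rt := fun l => (rq hk l.1.1.1 l.1.1.2 : bU p k →ₗ[ℝ] ℝ)
    wt := B.wt_e hk
    pos := pos_e B hk
    sep := sep_e B hk hH
    nonprop := fun l l' h t => rq_nonprop hk (fun h' => h (by rw [h'])) t
    gen := fun t l l' _ p' q' hp' hq' h => B.gen_e hk hε hH t l l' p' q' hp' hq' h
    J := Unit
    comp := fun _ => ()
    top := fun _ => ⟨q0, β0⟩
    comp_top := fun _ => rfl
    comp_rt := fun _ _ _ => rfl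
    climb := by
      intro l hl x hx h
      refine B.climb_e hk hε hH l ?_ x hx h
      rintro ⟨h1, h2⟩
      apply hl
      have h3 : l.1 = q0 := by
        refine Subtype.ext (Prod.ext (Fin.ext ?_) (Fin.ext ?_))
        · rw [h1]
        · show (l.1.1.2 : ℕ) = (Fin.rev z : Fin (2 * p))
          rw [Fin.val_rev, hz]; omega
      show rq hk l.1.1.1 l.1.1.2 = rq hk q0.1.1 q0.1.2
      rw [h3]
    rank1 := by
      intro l h
      exfalso
      have h1 := h ⟨q0, β0⟩ rfl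
      have h2 := h ⟨q1, β1⟩ rfl
      exact hq01 (rq_inj hk (h2.trans h1.symm))
    scal := by
      intro κ _
      obtain ⟨S, hS⟩ := scal_e (p := p) (k := k) κ hk
      exact ⟨S, fun l a => hS _ _ a⟩ }⟩

end Pool.Agent.QSN.H30M

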