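import Pool.Agent.QSN.StmtsE

/-!
# Squad QSN, row ABU: the root spaces of the unitary groups are abelian
-/

set_option autoImplicit false

namespace Pool.Agent.QSN.H30

open Matrix Finset Pool.Agent.QSX

theorem dia_br {k n : ℕ} (c : Fin n → ℝ)
    (x : Matrix (Fin n) (Fin n) (Matrix (Fin k) (Fin k) ℝ)) (i j : Fin n) :
    (dia k c * x - x * dia k c) i j = (c i - c j) • x i j := by
  rw [Matrix.sub_apply, dia, Matrix.diagonal_mul, Matrix.mul_diagonal, Matrix.smul_mul,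
    Matrix.mul_smul, Matrix.one_mul, Matrix.mul_one, sub_smul]

/-- `b_h = e_h - e_(rev h)` -/
noncomputable def bv {p : ℕ} (h : Fin (2 * p)) : Fin (2 * p) → ℝ :=
  fun i => if i = h then 1 else if i = Fin.rev h then -1 else 0

theorem rev_ne {p : ℕ} (h : Fin (2 * p)) : Fin.rev h ≠ h := by
  intro h1
  have h2 := congrArg Fin.val h1
  rw [Fin.val_rev] at h2
  have := h.2
  omega

theorem bv_self {p : ℕ} (h : Fin (2 * p)) : bv h h = 1 := by
  unfold bv
  rw [if_pos rfl]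

theorem bv_rev {p : ℕ} (h i : Fin (2 * p)) : bv h (Fin.rev i) = - bv h i := by
  unfold bv
  by_cases h1 : i = h
  · subst h1
    rw [if_neg (rev_ne i), if_pos rfl, if_pos rfl]
  · by_cases h2 : i = Fin.rev h
    · subst h2
      rw [Fin.rev_rev, if_pos rfl, if_neg (rev_ne h), if_pos rfl, neg_neg]
    · rw [if_neg h1, if_neg h2, neg_zero]
      rw [if_neg, if_neg]
      · intro h3
        exact h1 (Fin.rev_injective h3)
      · intro h3
        exact h2 (by rw [← h3, Fin.rev_rev])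

theorem bv_le {p : ℕ} {h i : Fin (2 * p)} (hi : i ≠ h) : bv h i ≤ 0 := by
  unfold bv
  rw [if_neg hi]
  split_ifs
  · norm_num
  · exact le_refl _

theorem ab_mul {k p : ℕ} {𝔻 : Subalgebra ℝ (Matrix (Fin k) (Fin k) ℝ)}
    (x y : Matrix (Fin (2 * p)) (Fin (2 * p)) (Matrix (Fin k) (Fin k) ℝ))
    (hx : x ∈ UD (2 * p) 𝔻) (hy : y ∈ UD (2 * p) 𝔻) (r : (Fin (2 * p) → ℝ) → ℝ)
    (h1 : ∀ c : Fin (2 * p) → ℝ, (∀ i, c (Fin.rev i) = - c i) → ∀ i j, x i j ≠ 0 →
      c i - c j = r c)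
    (h2 : ∀ c : Fin (2 * p) → ℝ, (∀ i, c (Fin.rev i) = - c i) → ∀ i j, y i j ≠ 0 →
      c i - c j = r c) : x * y = 0 := by
  refine Matrix.ext fun i j => ?_
  rw [Matrix.mul_apply, Matrix.zero_apply]
  refine Finset.sum_eq_zero fun h _ => ?_
  by_cases hxi : x i h = 0
  · rw [hxi, zero_mul]
  by_cases hyi : y h j = 0
  · rw [hyi, mul_zero]
  exfalso
  have hih : i < h := by
    by_contra hc
    exact hxi (hx.2 i h (not_lt.1 hc))
  have hhj : h < j := by
    by_contra hc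
    exact hyi (hy.2 h j (not_lt.1 hc))
  have e1 := h1 (bv h) (bv_rev h) i h hxi
  have e2 := h2 (bv h) (bv_rev h) h j hyi
  have e3 : bv h i ≤ 0 := bv_le hih.ne
  have e4 : bv h j ≤ 0 := bv_le hhj.ne'
  rw [bv_self] at e1 e2
  linarith

theorem abu : AbuStmt := by
  intro k p 𝔻 ε hε hk ρ
  rintro _ ⟨x, hx, rfl⟩ _ ⟨y, hy, rfl⟩ h1 h2
  have key : ∀ z : Matrix (Fin (2 * p)) (Fin (2 * p)) (Matrix (Fin k) (Fin k) ℝ),
      (∀ (c : Fin (2 * p) → ℝ) (hc : ∀ i, c (Fin.rev i) = - c i),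
        diagonal (cst k (2 * p) c) * blk k (2 * p) z -
        blk k (2 * p) z * diagonal (cst k (2 * p) c) =
          ρ ⟨cst k (2 * p) c, c, hc, rfl⟩ • blk k (2 * p) z) →
      ∀ c : Fin (2 * p) → ℝ, (∀ i, c (Fin.rev i) = - c i) → ∀ i j, z i j ≠ 0 →
        c i - c j = (fun c : Fin (2 * p) → ℝ =>
          if hc : ∀ i, c (Fin.rev i) = - c i then ρ ⟨cst k (2 * p) c, c, hc, rfl⟩ else 0) c := by
    intro z hz c hc i j hne
    show _ = dite _ _ _
    rw [dif_pos hc]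
    have e1 := hz c hc
    rw [← blk_dia, ← map_mul, ← map_mul, ← map_sub, ← map_smul] at e1
    have e2 := (blk k (2 * p)).injective e1
    have e3 := congrFun (congrFun e2 i) j
    rw [dia_br, Matrix.smul_apply] at e3
    exact smul_left_injective ℝ hne e3
  have k1 := key x (fun c hc => h1 ⟨_, c, hc, rfl⟩)
  have k2 := key y (fun c hc => h2 ⟨_, c, hc, rfl⟩)
  show blk k (2 * p) x * blk k (2 * p) y - blk k (2 * p) y * blk k (2 * p) x = 0
  rw [← map_mul, ← map_mul, ab_mul x y hx.1 hy.1 _ k1 k2,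
    ab_mul y x hy.1 hx.1 _ k2 k1, map_zero, sub_zero]

end Pool.Agent.QSN.H30

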