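import Pool.Agent.QSN.StmtsB

/-!
# Squad QSN, row CNQ
-/

set_option autoImplicit false

namespace Pool.Agent.QSN.H30

open Matrix Finset Pool.Agent.QSX

theorem cq_ud_zero (m : ℕ) : ud (0 : Fin m → ℝ) = 1 := by
  apply Units.ext
  show (diagonal fun i => Real.exp ((0 : Fin m → ℝ) i)) = 1
  rw [← diagonal_one]
  congr 1
  funext i
  rw [Pi.zero_apply, Real.exp_zero]

theorem cq_span_entry {X : Dat} (hX : MS X) (Ψ : Set hX.ι) (z : Matrix (Fin X.m) (Fin X.m) ℝ)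
    (hz : z ∈ Submodule.span ℝ (hX.e '' Ψ)) (i j : Fin X.m)
    (h : ∀ ν ∈ Ψ, hX.e ν i j = 0) : z i j = 0 := by
  induction hz using Submodule.span_induction with
  | mem x hx =>
    obtain ⟨ν, hν, rfl⟩ := hx
    exact h ν hν
  | zero => rfl
  | add x y _ _ hx hy => rw [Matrix.add_apply, hx, hy, add_zero]
  | smul c x _ hx => rw [Matrix.smul_apply, hx, smul_zero]

theorem cq_span_mem {X : Dat} (hX : MS X) (Ψ : Set hX.ι) (z : Matrix (Fin X.m) (Fin X.m) ℝ)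
    (hz : z ∈ Submodule.span ℝ (hX.e '' Ψ)) : z ∈ X.n := by
  rw [← hX.span_e]
  exact Submodule.span_mono (Set.image_subset_range _ _) hz

theorem cq_wt_entry {X : Dat} (hX : MS X) (ν : hX.ι) (a : X.b) (i j : Fin X.m)
    (h : hX.e ν i j ≠ 0) : (a : Fin X.m → ℝ) i - (a : Fin X.m → ℝ) j = hX.rt ν a := by
  have h1 := congrFun (congrFun (hX.wt ν a) i) j
  rw [Matrix.sub_apply, Matrix.diagonal_mul, Matrix.mul_diagonal, Matrix.smul_apply,
    smul_eq_mul] at h1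
  have h2 : ((a : Fin X.m → ℝ) i - (a : Fin X.m → ℝ) j - hX.rt ν a) * hX.e ν i j = 0 := by
    linear_combination h1
  rcases mul_eq_zero.mp h2 with h3 | h3
  · linarith
  · exact absurd h3 h

/-- the conjugate -/
noncomputable def cqj {m : ℕ} (a : Fin m → ℝ) (z : Matrix (Fin m) (Fin m) ℝ) :
    Matrix (Fin m) (Fin m) ℝ :=
  (((ud a)⁻¹ : (Matrix (Fin m) (Fin m) ℝ)ˣ) : Matrix (Fin m) (Fin m) ℝ) * z *
    ((ud a : (Matrix (Fin m) (Fin m) ℝ)ˣ) : Matrix (Fin m) (Fin m) ℝ)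

theorem cqj_apply {m : ℕ} (a : Fin m → ℝ) (z : Matrix (Fin m) (Fin m) ℝ) (i j : Fin m) :
    cqj a z i j = Real.exp (-a i) * z i j * Real.exp (a j) := by
  show ((diagonal fun i => Real.exp (-a i)) * z * (diagonal fun i => Real.exp (a i))) i j = _
  rw [Matrix.mul_diagonal, Matrix.diagonal_mul]

theorem cqj_su {m : ℕ} (a : Fin m → ℝ) (z : Matrix (Fin m) (Fin m) ℝ) (hz : SU z) :
    SU (cqj a z) := by
  intro i j h
  rw [cqj_apply, hz i j h, mul_zero, zero_mul]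

theorem cqj_ue (mcj : McjStmt) {m : ℕ} (a : Fin m → ℝ) (z : Matrix (Fin m) (Fin m) ℝ)
    (hz : SU z) : (ud a)⁻¹ * ue z * ud a = ue (cqj a z) := by
  have h1 := mcj ℝ m (ud a)⁻¹ z hz (by rw [inv_inv]; exact cqj_su a z hz)
  rw [inv_inv] at h1
  exact h1.symm

theorem cnq (mcj : McjStmt) (pln : PlnStmt) : CnqStmt := by
  intro X hX
  obtain ⟨K, hK, hpln⟩ := pln X.m
  have hm0 : (0 : ℝ) ≤ (X.m : ℝ) * (X.m : ℝ) := by positivity
  refine ⟨K + (X.m : ℝ) * (X.m : ℝ), by linarith, ?_⟩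
  intro Ψ z hz M₀ hM₀ hzM a τ ha
  have hsu : SU z := X.su z (cq_span_mem hX Ψ z hz)
  rw [cqj_ue mcj _ z hsu]
  have h1 := (hpln (cqj (a : Fin X.m → ℝ) z) 0 (cqj_su _ z hsu)).2.2
  rw [cq_ud_zero, mul_one, norm_zero, zero_add] at h1
  refine h1.trans ?_
  have hE : 0 < Real.exp τ := Real.exp_pos τ
  have hent : ∀ i j, |cqj (a : Fin X.m → ℝ) z i j| ≤ M₀ * Real.exp τ := by
    intro i j
    by_cases hij : ∃ ν ∈ Ψ, hX.e ν i j ≠ 0
    · obtain ⟨ν, hν, hne⟩ := hij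
      have h3 := cq_wt_entry hX ν a i j hne
      have h4 : -τ ≤ hX.rt ν a := ha ν hν
      rw [cqj_apply, abs_mul, abs_mul, abs_of_pos (Real.exp_pos _), abs_of_pos (Real.exp_pos _)]
      have h5 : Real.exp (-(a : Fin X.m → ℝ) i) * Real.exp ((a : Fin X.m → ℝ) j) ≤
          Real.exp τ := by
        rw [← Real.exp_add]
        apply Real.exp_le_exp.mpr
        linarith
      calc Real.exp (-(a : Fin X.m → ℝ) i) * |z i j| * Real.exp ((a : Fin X.m → ℝ) j) =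
          (Real.exp (-(a : Fin X.m → ℝ) i) * Real.exp ((a : Fin X.m → ℝ) j)) * |z i j| := by ring
        _ ≤ Real.exp τ * |z i j| := mul_le_mul_of_nonneg_right h5 (abs_nonneg _)
        _ ≤ Real.exp τ * M₀ := mul_le_mul_of_nonneg_left (hzM i j) hE.le
        _ = M₀ * Real.exp τ := mul_comm _ _
    · push Not at hij
      have h3 := cq_span_entry hX Ψ z hz i j hij
      rw [cqj_apply, h3, mul_zero, zero_mul, abs_zero]
      exact mul_nonneg hM₀ hE.le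
  have h0 : 0 ≤ sz (cqj (a : Fin X.m → ℝ) z) :=
    Finset.sum_nonneg fun i _ => Finset.sum_nonneg fun j _ => abs_nonneg _
  have h2 : sz (cqj (a : Fin X.m → ℝ) z) ≤ (X.m : ℝ) * (X.m : ℝ) * (M₀ * Real.exp τ) := by
    unfold sz
    have h6 : ∑ i : Fin X.m, ∑ j : Fin X.m, |cqj (a : Fin X.m → ℝ) z i j| ≤
        ∑ _i : Fin X.m, ∑ _j : Fin X.m, M₀ * Real.exp τ :=
      Finset.sum_le_sum fun i _ => Finset.sum_le_sum fun j _ => hent i j
    refine h6.trans (le_of_eq ?_)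
    rw [Finset.sum_const, Finset.sum_const, Finset.card_univ, Fintype.card_fin, nsmul_eq_mul,
      nsmul_eq_mul]
    ring
  have hME : 0 ≤ M₀ * Real.exp τ := mul_nonneg hM₀ hE.le
  have h7 : sz (cqj (a : Fin X.m → ℝ) z) ≤ (K + (X.m : ℝ) * (X.m : ℝ)) * M₀ * Real.exp τ := by
    have h8 : 0 ≤ K * (M₀ * Real.exp τ) := mul_nonneg hK.le hME
    nlinarith
  have h9 : Real.log (1 + sz (cqj (a : Fin X.m → ℝ) z)) ≤
      Real.log (1 + (K + (X.m : ℝ) * (X.m : ℝ)) * M₀ * Real.exp τ) :=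
    Real.log_le_log (by linarith) (by linarith)
  have h10 : 0 ≤ Real.log (1 + sz (cqj (a : Fin X.m → ℝ) z)) :=
    Real.log_nonneg (by linarith)
  calc K * (Real.log (1 + sz (cqj (a : Fin X.m → ℝ) z)) + 1)
      ≤ (K + (X.m : ℝ) * (X.m : ℝ)) * (Real.log (1 + sz (cqj (a : Fin X.m → ℝ) z)) + 1) :=
        mul_le_mul_of_nonneg_right (by linarith) (by linarith)
    _ ≤ (K + (X.m : ℝ) * (X.m : ℝ)) *
        (Real.log (1 + (K + (X.m : ℝ) * (X.m : ℝ)) * M₀ * Real.exp τ) + 1) :=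
        mul_le_mul_of_nonneg_left (by linarith) (by linarith)

end Pool.Agent.QSN.H30

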